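import Pool.Agent.Lib_helper20.TF.DefsA
import Pool.Agent.Lib_helper57.AFF.All
import Pool.Agent.Lib_helper74.IS.All
import Pool.Agent.Lib_helper64.TDF.AGR
import Pool.Agent.Lib_helper64.TDF.CPT

/-!
# Goals and security depend on finitely many coordinates, and compactness (closed oracles)
-/

set_option autoImplicit false

namespace Pool.Agent.TD.TF

open Pool.Agent.CK Pool.Agent.TD.IS Filter

/-- agreement of two constructions, masks included -/
def AgreeR (b : ℕ) (S S' : Sec) (Tab Tab' : ℕ → Str → Str) (R R' : Lang) : Prop :=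
  Agree b S S' Tab Tab' ∧ ∀ w : Str, w.length ≤ b → R w = R' w

theorem agreeR_mono {b b' : ℕ} (h : b ≤ b') {S S' : Sec} {Tab Tab' : ℕ → Str → Str} {R R' : Lang}
    (hA : AgreeR b' S S' Tab Tab' R R') : AgreeR b S S' Tab Tab' R R' :=
  ⟨⟨fun n hn => hA.1.1 n (hn.trans h), fun e he z hz => hA.1.2 e (he.trans h) z (hz.trans h)⟩,
    fun w hw => hA.2 w (hw.trans h)⟩

theorem big_agree (M : Msk) {b : ℕ} {S S' : Sec} {Tab Tab' : ℕ → Str → Str} {R R' : Lang}
    (hA : AgreeR b S S' Tab Tab' R R') (w : Str) (hw : w.length ≤ b) :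
    M.big (orc S Tab) R w = M.big (orc S' Tab') R' w :=
  AFF.Lam_congr M.short M.P (fun u hu => orc_agree hA.1 u (by omega))
    (fun u hu => hA.2 u (by omega)) le_rfl

theorem corrW_agree {F : ℕ → Lang → Lang} {S S' : Sec} {k : ℕ} {O : Lang} (h : S.f (sn k) = S'.f (sn k))
    (hc : CorrW F S k O) : CorrW F S' k O := by
  obtain ⟨w, hw, hc⟩ := hc
  refine ⟨w, hw, fun x i hi => ?_⟩
  rw [hc x i hi]
  apply agr_VV
  have e : (x.1 ++ unitv (sn k) i).length / 3 = sn k := by
    rw [List.length_append, agr_unitv_length, x.2]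
    omega
  rw [e, h]

/-- the goals depend on finitely many coordinates -/
theorem goalQ_agree (F : ℕ → Lang → Lang) (M : Msk) (k : ℕ) (h5 : 5 ≤ sj k) (h2 : 2 * sj k ≤ su k) :
    ∃ b, ∀ S S' Tab Tab' R R', AgreeR b S S' Tab Tab' R R' →
      GoalI F S' k (M.big (orc S' Tab') R') Tab' → GoalI F S k (M.big (orc S Tab) R) Tab := by
  refine ⟨sD k + sn k + (se k + 1) + (sM k + qb k), fun S S' Tab Tab' R R' hA hG => ?_⟩
  have hO : ∀ w : Str, w.length < sD k →
      M.big (orc S' Tab') R' w = M.big (orc S Tab) R w := by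
    intro w hw
    exact (big_agree M hA w (by omega)).symm
  have hT : ∀ z : Str, z.length + 2 < sM k → Tab' (se k) z = Tab (se k) z := by
    intro z hz
    exact (hA.1.2 (se k) (by omega) z (by omega)).symm
  have hI : ∀ w ∈ ISet k, Tab' (se k + 1) w = Tab (se k + 1) w := by
    intro w hw
    have hw2 := (iset_length hw).2
    exact (hA.1.2 (se k + 1) (by omega) w (by omega)).symm
  have hG' : GoalI F S' k (M.big (orc S Tab) R) Tab := goalI_congr h5 h2 hO hT hI hG
  exact ⟨hG'.1, hG'.2.1, fun hc => hG'.2.2 (corrW_agree (hA.1.1 (sn k) (by omega)).2 hc)⟩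

/-- security at a level depends on finitely many coordinates -/
theorem secQ_agree (M : Msk) (n : ℕ) :
    ∃ b, ∀ S S' Tab Tab' R R', AgreeR b S S' Tab Tab' R R' →
      SecQ S' (M.big (orc S' Tab') R') n → SecQ S (M.big (orc S Tab) R) n := by
  refine ⟨2 * n + 2 ^ (LamQ n - 1) + 2 ^ (LamQ n - 1),
    fun S S' Tab Tab' R R' hA hS c hc w hw t ht => ?_⟩
  have h1 := hS c hc w hw t ht
  have hv : vv S n = vv S' n := agr_vv (hA.1.1 n (by omega)).2
  have he : ∀ x : X (2 * n), (run (M.big (orc S Tab) R) c x.1 w t).2 0 =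
      (run (M.big (orc S' Tab') R') c x.1 w t).2 0 := by
    intro x
    have e : ∀ O : Lang, ((runTree t ([c], init x.1 w)).map fun cf => cf.2 0).eval O =
        (run O c x.1 w t).2 0 := by
      intro O
      rw [DT.eval_map, mach_eval_runTree]
      rfl
    rw [← e, ← e]
    apply DT.eval_congr _ (fun w => w.length < 2 * n + 2 ^ (LamQ n - 1) + 2 ^ (LamQ n - 1))
    · apply mach_allQ_map
      apply mach_allQ_runTree t _ (2 * n + 2 ^ (LamQ n - 1)) _ _ (by omega)
      exact mach_init_len x.1 w _ (by rw [x.2]; omega) (by omega)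
    · intro u hu
      exact big_agree M hA u (by omega)
  have hh : (Finset.univ.filter fun x : X (2 * n) =>
      (run (M.big (orc S Tab) R) c x.1 w t).2 0 = vv S n x) =
      (Finset.univ.filter fun x : X (2 * n) =>
      (run (M.big (orc S' Tab') R') c x.1 w t).2 0 = vv S' n x) := by
    apply Finset.filter_congr
    intro x _
    rw [he x, hv]
  rw [hh]
  exact h1

/-- compactness, masks included -/
theorem compactnessR (Ss : ℕ → Sec) (Ts : ℕ → ℕ → Str → Str) (Rs : ℕ → Lang)
    (hb : ∀ N e z, (Ts N e z).length ≤ alen e z) :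
    ∃ (S : Sec) (Tab : ℕ → Str → Str) (R : Lang), (∀ e z, (Tab e z).length ≤ alen e z) ∧
      ∀ b, ∃ N, b ≤ N ∧ AgreeR b S (Ss N) Tab (Ts N) R (Rs N) := by
  choose g hg using fun n => cpt_lim fun N => (Ss N).g n
  choose f hf using fun n => cpt_lim fun N => (Ss N).f n
  choose R hR using fun w => cpt_lim fun N => Rs N w
  have hT : ∀ e z, ∃ q : Str, q.length ≤ alen e z ∧
      ∀ᶠ N in (hyperfilter ℕ : Filter ℕ), Ts N e z = q := by
    intro e z
    have : Finite {q : Str // q.length ≤ alen e z} :=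
      (List.finite_length_le Bool (alen e z)).to_subtype
    obtain ⟨a, ha⟩ := cpt_lim fun N => (⟨Ts N e z, hb N e z⟩ : {q : Str // q.length ≤ alen e z})
    refine ⟨a.1, a.2, ?_⟩
    filter_upwards [ha] with N hN
    exact congrArg Subtype.val hN
  choose Tab hTab1 hTab2 using hT
  refine ⟨⟨g, f⟩, Tab, R, hTab1, fun b => ?_⟩
  have h1 : ∀ᶠ N in (hyperfilter ℕ : Filter ℕ), b ≤ N := by
    have : (hyperfilter ℕ : Filter ℕ) ≤ atTop := by
      rw [← Nat.cofinite_eq_atTop]
      exact hyperfilter_le_cofinite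
    exact this (eventually_ge_atTop b)
  have h2 : ∀ᶠ N in (hyperfilter ℕ : Filter ℕ), ∀ n ∈ Set.Iic b,
      g n = (Ss N).g n ∧ f n = (Ss N).f n := by
    rw [eventually_all_finite (Set.finite_Iic b)]
    intro n _
    filter_upwards [hg n, hf n] with N h h'
    exact ⟨h.symm, h'.symm⟩
  have h3 : ∀ᶠ N in (hyperfilter ℕ : Filter ℕ), ∀ e ∈ Set.Iic b, ∀ z ∈ {z : Str | z.length ≤ b},
      Tab e z = Ts N e z := by
    rw [eventually_all_finite (Set.finite_Iic b)]
    intro e _
    rw [eventually_all_finite (List.finite_length_le Bool b)]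
    intro z _
    filter_upwards [hTab2 e z] with N h
    exact h.symm
  have h4 : ∀ᶠ N in (hyperfilter ℕ : Filter ℕ), ∀ z ∈ {z : Str | z.length ≤ b},
      R z = Rs N z := by
    rw [eventually_all_finite (List.finite_length_le Bool b)]
    intro z _
    filter_upwards [hR z] with N h
    exact h.symm
  obtain ⟨N, hN1, hN2, hN3, hN4⟩ := (h1.and (h2.and (h3.and h4))).exists
  exact ⟨N, hN1, ⟨fun n hn => hN2 n hn, fun e he z hz => hN3 e he z hz⟩, fun w hw => hN4 w hw⟩

/-- The limit of the constructions up to a horizon. -/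
theorem goals_allQ_of (F : ℕ → Lang → Lang) (M : Msk) {t0 : ℕ → ℕ} {n0 : ℕ}
    (H : ∀ N : ℕ, ∃ (S : Sec) (Tab : ℕ → Str → Str) (R : Lang),
      (∀ e z, (Tab e z).length ≤ alen e z) ∧
      (∀ k < N, Act t0 k → GoalI F S k (M.big (orc S Tab) R) Tab) ∧
      ∀ n, n0 ≤ n → n ≤ N → SecQ S (M.big (orc S Tab) R) n) :
    ∃ (S : Sec) (Tab : ℕ → Str → Str) (R : Lang),
      (∀ e z, (Tab e z).length ≤ alen e z) ∧
      (∀ k, Act t0 k → GoalI F S k (M.big (orc S Tab) R) Tab) ∧
      ∀ n, n0 ≤ n → SecQ S (M.big (orc S Tab) R) n := by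
  choose Ss Ts Rs h1 h2 h3 using H
  obtain ⟨S, Tab, R, hlen, hag⟩ := compactnessR Ss Ts Rs h1
  refine ⟨S, Tab, R, hlen, ?_, ?_⟩
  · intro k hact
    obtain ⟨b, hb⟩ := goalQ_agree F M k hact.1 hact.2.1
    obtain ⟨N, hbN, hN'⟩ := hag (max b (k + 1))
    exact hb _ _ _ _ _ _ (agreeR_mono (le_max_left _ _) hN')
      (h2 N k (by have := le_max_right b (k + 1); omega) hact)
  · intro n hn
    obtain ⟨b, hb⟩ := secQ_agree M n
    obtain ⟨N, hbN, hN'⟩ := hag (max b n)
    exact hb _ _ _ _ _ _ (agreeR_mono (le_max_left _ _) hN')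
      (h3 N n hn (by have := le_max_right b n; omega))

end Pool.Agent.TD.TF
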