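import Pool.Agent.Lib_helper20.TF.DefsA
import Pool.Agent.Lib_helper57.AFF.All
import Pool.Agent.Lib_helper74.IS.Main
import Pool.Agent.Lib_helper40.TDB.NotP
import Pool.Agent.Lib_helper57.AFF.G

/-!
# From the goals and the security to the properties of the closed oracle
-/

set_option autoImplicit false

namespace Pool.Agent.TD.TF

open Pool.Agent.CK Pool.Agent.CKP Pool.Agent.TD.IS

/-! ## Reading the plain oracle -/

theorem big_read (M : Msk) (O R : Lang) (w : Str) :
    O w = M.big O R (false :: false :: M.big O R (false :: true :: w) :: w) :=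
  AFF.Lam_read M.one M.P O R w

/-! ## Security -/

theorem growth_poly9 (k : ℕ) : ∃ N0, ∀ n, N0 ≤ n →
    (2 * n + 2) ^ k ≤ 2 ^ (n / (Nat.log 2 n) ^ 9) := by
  have h := tendsto_pow_const_div_const_pow_of_one_lt 10 (r := (2 : ℝ)) (by norm_num)
  have h1 : ∀ᶠ m : ℕ in Filter.atTop, (m : ℝ) ^ 10 / 2 ^ m < 1 / (8 * k + 1) :=
    h.eventually_lt_const (by positivity)
  obtain ⟨m0, hm0⟩ := Filter.eventually_atTop.1 h1
  refine ⟨2 ^ (m0 + 3), fun n hn => ?_⟩
  set L := Nat.log 2 n with hL
  have hn0 : n ≠ 0 := by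
    have := Nat.one_le_two_pow (n := m0 + 3)
    omega
  have hLm : m0 + 3 ≤ L := Nat.le_log_of_pow_le (by norm_num) hn
  have hlow : 2 ^ L ≤ n := Nat.pow_log_le_self 2 hn0
  have hup : n < 2 ^ (L + 1) := Nat.lt_pow_succ_log_self (by norm_num) n
  have h2 := hm0 (L + 3) (by omega)
  rw [div_lt_div_iff₀ (by positivity) (by positivity), one_mul] at h2
  have h3 : (L + 3) ^ 10 * (8 * k + 1) < 2 ^ (L + 3) := by exact_mod_cast h2
  have h4 : k * (L + 3) ^ 10 ≤ 2 ^ L := by
    have e : 2 ^ (L + 3) = 8 * 2 ^ L := by rw [pow_add]; ring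
    have e2 : (L + 3) ^ 10 * (8 * k + 1) = 8 * (k * (L + 3) ^ 10) + (L + 3) ^ 10 := by ring
    rw [e, e2] at h3
    omega
  have h5 : k * (L + 3) ≤ n / L ^ 9 := by
    rw [Nat.le_div_iff_mul_le (by have : 0 < L := by omega
                                  positivity)]
    calc k * (L + 3) * L ^ 9 ≤ k * (L + 3) * (L + 3) ^ 9 :=
          Nat.mul_le_mul_left _ (Nat.pow_le_pow_left (by omega) 9)
      _ = k * (L + 3) ^ 10 := by ring
      _ ≤ 2 ^ L := h4
      _ ≤ n := hlow
  calc (2 * n + 2) ^ k ≤ (2 ^ (L + 3)) ^ k := by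
        refine Nat.pow_le_pow_left ?_ k
        have e : 2 ^ (L + 3) = 4 * 2 ^ (L + 1) := by rw [pow_add, pow_add]; ring
        omega
    _ = 2 ^ (k * (L + 3)) := by rw [← pow_mul, mul_comm]
    _ ≤ _ := Nat.pow_le_pow_right (by norm_num) h5

/-- If the trapdoor permutations are secure, then the secret language is not in `P`. -/
theorem not_inP_of_secure (S : Sec) (O : Lang) {T : ℕ → ℕ}
    (hT : ∀ k : ℕ, ∃ N0, ∀ n, N0 ≤ n → (2 * n + 2) ^ k ≤ T n)
    (h : Secure O (GG S) (FF S) T) : ¬ InP O (VV S) := by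
  intro hV
  obtain ⟨c, k, hc⟩ := inFP_of (ptime_invF (ptime_of_inP hV))
  obtain ⟨n0, hn0⟩ := Filter.eventually_atTop.1 (h c)
  obtain ⟨N0, hN0⟩ := hT k
  obtain ⟨n, hn⟩ : ∃ n, n = max n0 N0 := ⟨_, rfl⟩
  have h1 := hN0 n (by rw [hn]; exact le_max_right _ _)
  have h1' : 1 ≤ T n := le_trans (Nat.one_le_pow _ _ (by omega)) h1
  have h2 : T n * inversions O (GG S) (FF S) n c []
      ((2 * n + 2) ^ k) < 4 ^ n := hn0 n (by rw [hn]; exact le_max_left _ _) [] (by simp) _ h1
  rw [inversions_eq] at h2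
  have h3 : (Finset.univ.filter fun x : X (2 * n) =>
      (run O c x.1 [] ((2 * n + 2) ^ k)).2 0 = vv S n x) = Finset.univ := by
    refine Finset.filter_true_of_mem fun x _ => ?_
    have := (hc x.1).2
    rw [x.2] at this
    rw [this, invF_VV]
  rw [h3, Finset.card_univ, card_X_TD, pow_mul] at h2
  norm_num at h2
  have h4 : 1 * 4 ^ n ≤ T n * 4 ^ n := Nat.mul_le_mul_right _ h1'
  omega

theorem secure_of' (S : Sec) (O : Lang) (T : ℕ → ℕ)
    (h : ∀ c : Cmd, ∀ᶠ n : ℕ in Filter.atTop, ∀ w : Str, w.length ≤ T n → ∀ t ≤ T n,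
      T n * (Finset.univ.filter fun x : X (2 * n) =>
        (run O c x.1 w t).2 0 = vv S n x).card < 4 ^ n) :
    Secure O (GG S) (FF S) T := by
  intro c
  filter_upwards [h c] with n hn w hw t ht
  have h1 := hn w hw t ht
  rw [← inversions_eq] at h1
  exact h1

theorem secure_of_secQ {S : Sec} {O : Lang} {n0 : ℕ} (hsec : ∀ n, n0 ≤ n → SecQ S O n)
    (hlam : ∀ n : ℕ, n / (Nat.log 2 n) ^ 9 < LamQ n) :
    Secure O (GG S) (FF S) (fun n => 2 ^ (n / (Nat.log 2 n) ^ 9)) := by
  apply secure_of'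
  intro c
  filter_upwards [Filter.eventually_ge_atTop n0,
    Filter.eventually_ge_atTop (Encodable.encode c)] with n hn hc w hw t ht
  have h1 := hlam n
  have h2 : n / (Nat.log 2 n) ^ 9 ≤ LamQ n - 1 := by omega
  have h3 : 2 ^ (n / (Nat.log 2 n) ^ 9) ≤ 2 ^ (LamQ n - 1) :=
    Nat.pow_le_pow_right (by norm_num) h2
  have h4 : 2 ^ (n / (Nat.log 2 n) ^ 9) ≤ 2 ^ LamQ n :=
    Nat.pow_le_pow_right (by norm_num) h1.le
  exact (Nat.mul_le_mul_right _ h4).trans_lt
    (hsec n hn c hc w (hw.trans h3) t (ht.trans h3))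

/-! ## The reductions -/

/-- All pairs are reducible with inverse. -/
theorem redI_of_goalsQ {F : ℕ → Lang → Lang} (hF : ∀ i, PolyLocal (F i)) (M : Msk) {S : Sec}
    {Tab : ℕ → Str → Str} {R : Lang} (t0 : ℕ → ℕ)
    (hlen : ∀ e z, (Tab e z).length ≤ alen e z)
    (hgoal : ∀ k, Act t0 k → GoalI F S k (M.big (orc S Tab) R) Tab) {A C : Lang}
    (hC : Cls F (M.big (orc S Tab) R) C)
    (hT : NonuniformTuringReducible (M.big (orc S Tab) R) (VV S) C)
    (hA : Cls F (M.big (orc S Tab) R) A) : RedI (M.big (orc S Tab) R) A C := by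
  obtain ⟨e, m0, h6, h1, h2, h3, h4⟩ := goals_facts hF t0 hgoal hC hT hA
  refine redI_abs (Te := Tab e) (Ti := Tab (e + 1))
    (AFF.trans_InFP (big_read M _ R) (col_read S Tab hlen e h6))
    (AFF.trans_InFP (big_read M _ R) (col_read S Tab hlen (e + 1) (by omega))) m0 h1 h2 h3 ?_
  intro z
  have hl : m0 ≤ (ones m0 ++ false :: z).length := by
    simp [ones]
  rw [h4 _ hl, strip_ones]

/-- the trapdoor permutations relative to the closed oracle -/
theorem tdp_big (M : Msk) (S : Sec) (Tab : ℕ → Str → Str) (R : Lang) :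
    TrapdoorPermutations (M.big (orc S Tab) R) (GG S) (FF S) (HH S) where
  inFP_G := AFF.trans_InFP (big_read M _ R) (tdp S Tab).inFP_G
  inFP_F := AFF.trans_InFP (big_read M _ R) (tdp S Tab).inFP_F
  inFP_H := AFF.trans_InFP (big_read M _ R) (tdp S Tab).inFP_H
  bij_G := (tdp S Tab).bij_G
  bij_F := (tdp S Tab).bij_F
  inv := (tdp S Tab).inv

/-- The properties of the oracle in the final theorem: `G`, `K`, `H` are trapdoor permutations that
are secure against nonuniform adversaries of size `T`, the language `V` is in `UP ∩ coUP` and not in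
`P` and is complete for `NP`; all languages that are complete for `NP` under Turing reductions are
complete under many-one reductions; all languages in `NP`, all languages that are decidable in
exponential time with questions of polynomial length, and the languages `F i O` are reducible to
`V`, and all such languages to which `V` is reducible by nonuniform Turing reductions are
isomorphic. -/
structure OneComplete (F : ℕ → Lang → Lang) (T : ℕ → ℕ) (O V : Lang)
    (G K H : List Bool → List Bool) : Prop where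
  tdp : TrapdoorPermutations O G K H
  secure : Secure O G K T
  inUP : InUP O V
  inCoUP : InUP O (fun x => !V x)
  not_inP : ¬ InP O V
  complete : ManyOneComplete O V
  collapse : ∀ C, TuringComplete O C → ManyOneComplete O C
  hard : ∀ A, (InNP O A ∨ InEXPpoly O A ∨ ∃ i, F i O = A) → ManyOneReducible O A V
  iso : ∀ C C', (InNP O C ∨ InEXPpoly O C ∨ ∃ i, F i O = C) →
    (InNP O C' ∨ InEXPpoly O C' ∨ ∃ i, F i O = C') →
    NonuniformTuringReducible O V C → NonuniformTuringReducible O V C' → PIso O C C'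

/-- the bounds `2 ^ (n / (log n) ^ e)` -/
def TB (e n : ℕ) : ℕ := 2 ^ (n / (Nat.log 2 n) ^ e)

/-- the family with the exponential time operators added -/
def addXP (F : ℕ → Lang → Lang) : ℕ → Lang → Lang := fun i =>
  if i.unpair.1 = 0 then F i.unpair.2 else XP i.unpair.2

theorem addXP_local {F : ℕ → Lang → Lang} (hF : ∀ i, PolyLocal (F i)) (i : ℕ) :
    PolyLocal (addXP F i) := by
  unfold addXP
  split_ifs
  · exact hF _
  · exact XP_local _

theorem cls_addXP (F : ℕ → Lang → Lang) (O A : Lang)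
    (h : InNP O A ∨ InEXPpoly O A ∨ ∃ i, F i O = A) : Cls (addXP F) O A := by
  rcases h with h | h | ⟨i, hi⟩
  · exact Or.inl h
  · obtain ⟨i, hi⟩ := exists_XP h
    refine Or.inr ⟨Nat.pair 1 i, ?_⟩
    simp only [addXP, Nat.unpair_pair, one_ne_zero, if_false]
    exact hi
  · refine Or.inr ⟨Nat.pair 0 i, ?_⟩
    simp only [addXP, Nat.unpair_pair, if_true]
    exact hi

theorem oneComplete_of_goals {F : ℕ → Lang → Lang} (hF : ∀ i, PolyLocal (F i)) (M : Msk)
    {S : Sec} {Tab : ℕ → Str → Str} {R : Lang} (t0 : ℕ → ℕ)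
    (n0 : ℕ) (hlam : ∀ n : ℕ, n / (Nat.log 2 n) ^ 9 < LamQ n)
    (hlen : ∀ e z, (Tab e z).length ≤ alen e z)
    (hgoal : ∀ k, Act t0 k → GoalI (addXP F) S k (M.big (orc S Tab) R) Tab)
    (hsec : ∀ n, n0 ≤ n → SecQ S (M.big (orc S Tab) R) n) :
    OneComplete F (TB 9) (M.big (orc S Tab) R) (VV S) (GG S) (FF S) (HH S) := by
  have hNP : InNP (M.big (orc S Tab) R) (VV S) :=
    AFF.trans_InNP (big_read M _ R) (inNP_VV S Tab)
  have hS := secure_of_secQ hsec hlam
  have hred := fun {A C : Lang} =>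
    redI_of_goalsQ (A := A) (C := C) (addXP_local hF) M t0 hlen hgoal
  exact {
    tdp := tdp_big M S Tab R
    secure := hS
    inUP := AFF.trans_InUP (big_read M _ R) (inUP_VV S Tab)
    inCoUP := AFF.trans_InUP (big_read M _ R) (inUP_compl_VV S Tab)
    not_inP := not_inP_of_secure S _ growth_poly9 hS
    complete := ⟨hNP, fun A hA => manyOne_of_redI
      (hred (Or.inl hNP) (nonuniform_of_turing (main_refl _ _)) (Or.inl hA))⟩
    collapse := fun C hC => ⟨hC.1, fun A hA => manyOne_of_redI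
      (hred (Or.inl hC.1) (nonuniform_of_turing (hC.2 _ hNP)) (Or.inl hA))⟩
    hard := fun A hA => manyOne_of_redI
      (hred (Or.inl hNP) (nonuniform_of_turing (main_refl _ _)) (cls_addXP F _ _ hA))
    iso := fun C C' hC hC' h h' =>
      iso_of_redI (hred (cls_addXP F _ _ hC') h' (cls_addXP F _ _ hC))
        (hred (cls_addXP F _ _ hC) h (cls_addXP F _ _ hC')) }

/-! ## Linear schemes -/

/-- the data of the construction for a linear scheme -/
theorem exists_msk (ext : Str → Finset Str) (hext : ∀ u, ∀ x ∈ ext u, x.length ≤ u.length) :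
    ∃ M : Msk, ∀ O R : Lang, AFF.Closed ext (M.big O R) := by
  obtain ⟨T, hS, h0, h1, hcl⟩ := AFF.exists_closed ext hext
  obtain ⟨P, hP⟩ := AFF.exists_genP T
  exact ⟨⟨T, P, hS, hP, h0, h1⟩, fun O R => hcl _⟩

/-- The final theorem, from the construction of the oracle. -/
theorem main_of_goals (hlam : ∀ n : ℕ, n / (Nat.log 2 n) ^ 9 < LamQ n)
    (H : ∀ (F : ℕ → Lang → Lang) (M : Msk), ∃ (t0 : ℕ → ℕ) (n0 : ℕ) (S : Sec)
      (Tab : ℕ → Str → Str) (R : Lang), (∀ e z, (Tab e z).length ≤ alen e z) ∧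
      (∀ k, Act t0 k → GoalI F S k (M.big (orc S Tab) R) Tab) ∧
      ∀ n, n0 ≤ n → SecQ S (M.big (orc S Tab) R) n)
    (F : ℕ → Lang → Lang) (hF : ∀ i, PolyLocal (F i))
    (ext : Str → Finset Str) (hext : ∀ u, ∀ x ∈ ext u, x.length ≤ u.length) :
    ∃ (O V : Lang) (G K H : List Bool → List Bool), AFF.Closed ext O ∧
      OneComplete F (TB 9) O V G K H := by
  obtain ⟨M, hM⟩ := exists_msk ext hext
  obtain ⟨t0, n0, S, Tab, R, h1, h2, h3⟩ := H (addXP F) M
  exact ⟨_, _, _, _, _, hM _ _, oneComplete_of_goals hF M t0 n0 hlam h1 h2 h3⟩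

/-- the union of two schemes -/
def schU (e1 e2 : Str → Finset Str) : Str → Finset Str
  | [] => ∅
  | false :: u => e1 u
  | true :: u => e2 u

theorem schU_len {e1 e2 : Str → Finset Str} (h1 : ∀ u, ∀ x ∈ e1 u, x.length ≤ u.length)
    (h2 : ∀ u, ∀ x ∈ e2 u, x.length ≤ u.length) :
    ∀ u, ∀ x ∈ schU e1 e2 u, x.length ≤ u.length := by
  intro u x hx
  match u with
  | [] => simp [schU] at hx
  | false :: u =>
    have := h1 u x hx
    simp only [List.length_cons]
    omega
  | true :: u =>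
    have := h2 u x hx
    simp only [List.length_cons]
    omega

/-- With multilinear extensions: from the theorem for linear schemes. -/
theorem mlx_of_main {F : ℕ → Lang → Lang}
    (H : ∀ ext : Str → Finset Str, (∀ u, ∀ x ∈ ext u, x.length ≤ u.length) →
      ∃ (O V : Lang) (G K H : List Bool → List Bool), AFF.Closed ext O ∧
        OneComplete F (TB 9) O V G K H)
    (ext : Str → Finset Str) (hext : ∀ u, ∀ x ∈ ext u, x.length ≤ u.length)
    (pt : Str → (n : ℕ) × (k : ℕ) × (Fin n → GaloisField 2 k) ×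
      (GaloisField 2 k →ₗ[ZMod 2] ZMod 2)) (hpt : ∀ u, (pt u).1 ≤ u.length) :
    ∃ (O V : Lang) (G K H : List Bool → List Bool),
      (∀ u, O (true :: false :: u) = decide (Odd ((ext u).filter fun x => O x = true).card)) ∧
      (∀ u, O (true :: true :: u) = decide ((pt u).2.2.2
        (AFF.mlx (fun b : Fin (pt u).1 → Bool => O (List.ofFn b)) (pt u).2.2.1) = 1)) ∧
      OneComplete F (TB 9) O V G K H := by
  obtain ⟨ext2, hext2, h⟩ := AFF.exists_mlx pt hpt
  obtain ⟨O, V, G, K, H', h1, h2⟩ := H (schU ext ext2) (schU_len hext hext2)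
  exact ⟨O, V, G, K, H', fun u => h1 (false :: u), fun u => (h1 (true :: u)).trans (h O u), h2⟩

end Pool.Agent.TD.TF
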