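import Pool.Agent.Lib_helper20.TFF.IterQ
import Pool.Agent.Lib_helper57.AFQ.Agr
import Pool.Agent.Lib_helper57.AFQ.End

/-!
# The final theorem for closed oracles
-/

set_option autoImplicit false

namespace Pool.Agent.TD.TF

open Pool.Agent.CK Pool.Agent.TD.IS

/-- The limit. -/
theorem goals_allQ (F : ℕ → Lang → Lang) (M : Msk) : ∃ (t0 : ℕ → ℕ) (n0 : ℕ) (S : Sec)
    (Tab : ℕ → Str → Str) (R : Lang), (∀ e z, (Tab e z).length ≤ alen e z) ∧
      (∀ k, Act t0 k → GoalI F S k (M.big (orc S Tab) R) Tab) ∧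
      ∀ n, n0 ≤ n → SecQ S (M.big (orc S Tab) R) n := by
  obtain ⟨n0, hN⟩ := exists_n0Q
  obtain ⟨t0, hK⟩ := exists_t0Q n0
  obtain ⟨S, Tab, R, h⟩ := goals_allQ_of F M (t0 := t0) (n0 := n0)
    (fun N => horizonQ F base M hN hK N)
  exact ⟨t0, n0, S, Tab, R, h⟩

/-- For every countable family of polynomially local operators and every linear scheme there is an
oracle that is closed under the scheme and has the properties `OneComplete`. -/
theorem main_closed (F : ℕ → Lang → Lang) (hF : ∀ i, PolyLocal (F i))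
    (ext : Str → Finset Str) (hext : ∀ u, ∀ x ∈ ext u, x.length ≤ u.length) :
    ∃ (O V : Lang) (G K H : List Bool → List Bool), AFF.Closed ext O ∧
      OneComplete F (TB 9) O V G K H :=
  main_of_goals div_log_lt_LamQ goals_allQ F hF ext hext

/-- The final theorem. -/
theorem main_mlx (F : ℕ → Lang → Lang) (hF : ∀ i, PolyLocal (F i))
    (ext : Str → Finset Str) (hext : ∀ u, ∀ x ∈ ext u, x.length ≤ u.length)
    (pt : Str → (n : ℕ) × (k : ℕ) × (Fin n → GaloisField 2 k) ×
      (GaloisField 2 k →ₗ[ZMod 2] ZMod 2)) (hpt : ∀ u, (pt u).1 ≤ u.length) :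
    ∃ (O V : Lang) (G K H : List Bool → List Bool),
      (∀ u, O (true :: false :: u) = decide (Odd ((ext u).filter fun x => O x = true).card)) ∧
      (∀ u, O (true :: true :: u) = decide ((pt u).2.2.2
        (AFF.mlx (fun b : Fin (pt u).1 → Bool => O (List.ofFn b)) (pt u).2.2.1) = 1)) ∧
      OneComplete F (TB 9) O V G K H :=
  mlx_of_main (main_closed F hF) ext hext pt hpt

end Pool.Agent.TD.TF
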